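import Pool.Agent.SGL.StmtsG

/-!
# Squad SGL, row FNL: the theorem
-/

noncomputable section

namespace Pool.Agent.SGL.H11

open Pool.Agent.SGE Pool.Agent.SGP Pool.Agent.SGY Pool.Agent.SGD

theorem third {n : ℕ} (hn : 3 ≤ n) (u v : Fin n) : ∃ w, w ≠ u ∧ w ≠ v := by
  classical
  by_contra hcon
  push Not at hcon
  have h1 : (Finset.univ : Finset (Fin n)) ⊆ {u, v} := by
    intro w _
    rw [Finset.mem_insert, Finset.mem_singleton]
    by_cases hw : w = u
    · exact Or.inl hw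
    · exact Or.inr (hcon w hw)
  have h2 := Finset.card_le_card h1
  have h3 := Finset.card_le_two (a := u) (b := v)
  rw [Finset.card_univ, Fintype.card_fin] at h2
  omega

theorem o_pp (p q : ℝ × ℝ) : o p p q = 0 := by unfold o; ring

/-- at most two vertices -/
theorem small (sml : SmlStmt) {n : ℕ} (hn : n ≤ 2) (G₁ G₂ : SimpleGraph (Fin n)) :
    ∃ P : Finset (ℝ × ℝ), P.card = n ∧ (∃ f, Draw G₁ f ∧ ∀ u, f u ∈ P) ∧
    ∃ f, Draw G₂ f ∧ ∀ u, f u ∈ P := by
  classical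
  have h1 := sml n G₁ hn
  have h2 := sml n G₂ hn
  refine ⟨Finset.univ.image (fun i : Fin n => ((i : ℝ), (0 : ℝ))), ?_, ⟨_, h1, ?_⟩, ⟨_, h2, ?_⟩⟩
  · rw [Finset.card_image_of_injective _ h1.inj, Finset.card_univ, Fintype.card_fin]
  · exact fun u => Finset.mem_image_of_mem _ (Finset.mem_univ u)
  · exact fun u => Finset.mem_image_of_mem _ (Finset.mem_univ u)

/-- the sizes of the slices -/
theorem card_slice {B : Type} [Finite B] (K : B → ℕ) (m : ℕ) (hinj : Function.Injective K)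
    (hlt : ∀ b, K b < m) (hcard : Nat.card B = m) (σ : ℕ → ℕ) (i : ℕ) :
    Nat.card {y : B // σ (K y) = i} = ((Finset.range m).filter fun j => σ j = i).card := by
  classical
  haveI : Fintype B := Fintype.ofFinite B
  have him : Finset.univ.image K = Finset.range m := by
    apply Finset.eq_of_subset_of_card_le
    · intro j hj
      rw [Finset.mem_image] at hj
      obtain ⟨b, _, rfl⟩ := hj
      exact Finset.mem_range.mpr (hlt b)
    · rw [Finset.card_range, Finset.card_image_of_injective _ hinj, Finset.card_univ,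
        ← Nat.card_eq_fintype_card, hcard]
  rw [← him, Finset.filter_image, Finset.card_image_of_injective _ hinj,
    Nat.card_eq_fintype_card, Fintype.card_subtype]

/-- the sizes of the levels -/
theorem card_level {n : ℕ} (t : Fin n) (lev : Fin n → ℕ) (i : ℕ) :
    Nat.card {x : {w : Fin n // w ≠ t} // lev x.1 = i} =
      (Finset.univ.filter fun w : Fin n => w ≠ t ∧ lev w = i).card := by
  classical
  rw [Nat.card_congr (Equiv.subtypeSubtypeEquivSubtypeInter (fun w : Fin n => w ≠ t)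
    (fun w => lev w = i)), Nat.card_eq_fintype_card, Fintype.card_subtype]

theorem fnl (lay : LayStmt) (rla : RlaStmt) (ggp : GgpStmt) (gfa : GfaStmt) (gin : GinStmt)
    (gdl : GdlStmt) (nxl : NxlStmt) (sig : SigStmt) (mat : MatStmt) (sml : SmlStmt)
    (fpl : FplStmt) (drw : DrwStmt) (gnz : GnzStmt) : FnlStmt := by
  classical
  intro n G₁ G₂ T a hMax hHit hle t lev pos hLvl
  rcases Nat.lt_or_ge 2 n with h3n | h2n
  swap
  · exact small sml h2n G₁ G₂
  obtain ⟨b, c, E, F, hNT, hE, hiso, hRel, hNS⟩ := rla T a h3n hMax hHit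
  have hnd := hNT.nd
  have hrel_inl : ∀ x, Rel E x → ∃ u, x = Sum.inl u := by
    intro x hx
    obtain ⟨y, hy⟩ := hx
    rcases x with u | i
    · exact ⟨u, rfl⟩
    · exact absurd hy (hiso i y).1
  have hab : a ≠ b := by
    intro h
    apply hNT.ab
    rw [h]
  have hac : a ≠ c := by
    intro h
    simp [h] at hnd
  have hcb : c ≠ b := by
    intro h
    simp [h] at hnd
  have hN : (Inn (Sum.inl a) (Sum.inl b) (Sum.inl c) E).ncard + 3 = n := by
    have h1 : Inn (Sum.inl a) (Sum.inl b) (Sum.inl c) E =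
        (Sum.inl '' ({a, b, c} : Set (Fin n))ᶜ : Set (Fin n ⊕ Fin 3)) := by
      ext x
      constructor
      · rintro ⟨hxa, hxb, hxc, hx⟩
        obtain ⟨u, rfl⟩ := hrel_inl x hx
        refine ⟨u, ?_, rfl⟩
        intro hu
        rcases hu with hu | hu | hu
        · exact hxa (by rw [hu])
        · exact hxb (by rw [hu])
        · exact hxc (by rw [hu])
      · rintro ⟨u, hu, rfl⟩
        refine ⟨?_, ?_, ?_, hRel u⟩
        · intro h
          exact hu (Or.inl (Sum.inl_injective h))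
        · intro h
          exact hu (Or.inr (Or.inl (Sum.inl_injective h)))
        · intro h
          exact hu (Or.inr (Or.inr (Sum.inl_injective h)))
    rw [h1, Set.ncard_image_of_injective _ Sum.inl_injective]
    have h2 := Set.ncard_add_ncard_compl ({a, b, c} : Set (Fin n))
    rw [Nat.card_fin] at h2
    have h3 : ({a, b, c} : Set (Fin n)).ncard = 3 := by
      rw [Set.ncard_eq_three]
      exact ⟨a, b, c, hab, hac, Ne.symm hcb, rfl⟩
    omega
  have hRcard : Nat.card (RR (Sum.inl a : Fin n ⊕ Fin 3) E) = n - 1 := by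
    have h1 : RR (Sum.inl a : Fin n ⊕ Fin 3) E =
        (Sum.inl '' ({a} : Set (Fin n))ᶜ : Set (Fin n ⊕ Fin 3)) := by
      ext x
      constructor
      · rintro ⟨hx, hxa⟩
        obtain ⟨u, rfl⟩ := hrel_inl x hx
        refine ⟨u, ?_, rfl⟩
        intro hu
        exact hxa (by rw [Set.mem_singleton_iff.mp hu])
      · rintro ⟨u, hu, rfl⟩
        refine ⟨hRel u, ?_⟩
        intro h
        exact hu (Sum.inl_injective h)
    have h2 := Set.ncard_add_ncard_compl ({a} : Set (Fin n))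
    rw [Nat.card_fin, Set.ncard_singleton] at h2
    have h3 : (RR (Sum.inl a : Fin n ⊕ Fin 3) E).ncard = n - 1 := by
      rw [h1, Set.ncard_image_of_injective _ Sum.inl_injective]
      omega
    exact h3
  obtain ⟨σ, hσ, hσc⟩ := sig t lev
  obtain ⟨k, ρ, hL⟩ := lay hNT hNS σ hσ
  set N := (Inn (Sum.inl a) (Sum.inl b) (Sum.inl c) E).ncard with hNdef
  set f : Fin n ⊕ Fin 3 → ℝ × ℝ := co (Sum.inl a) N σ k ρ with hf
  have hGT : GdT (Sum.inl a) (Sum.inl b) (Sum.inl c) E F f :=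
    { gp := ggp hσ hL
      tri := (gin hσ hNT hL).1
      ins := (gin hσ hNT hL).2
      fac := gfa hσ hNT hL }
  have hca : (Sum.inl c : Fin n ⊕ Fin 3) ≠ Sum.inl a := fun h => hac (Sum.inl_injective h).symm
  have hGL : GdL (Sum.inl a) (Sum.inl c) (RR (Sum.inl a) E) (fun x => σ (k x)) ρ f :=
    gdl hσ hL (hRel c) hca
  have hcR : (Sum.inl c : Fin n ⊕ Fin 3) ∈ RR (Sum.inl a) E := ⟨hRel c, hca⟩
  -- the matching
  have hcards : ∀ i, Nat.card {x : {w : Fin n // w ≠ t} // lev x.1 = i} =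
      Nat.card {y : RR (Sum.inl a : Fin n ⊕ Fin 3) E // σ (k y.1) = i} := by
    intro i
    rw [card_level, card_slice (fun y : RR (Sum.inl a : Fin n ⊕ Fin 3) E => k y.1) (n - 1) ?_ ?_
      hRcard σ i, hσc i]
    · intro x y hxy
      exact Subtype.ext (hL.ki x.1 y.1 x.2.1 y.2.1 x.2.2 y.2.2 hxy)
    · intro x
      have h1 : k x.1 ≤ N + 1 := hL.kl x.1 x.2.1 x.2.2
      show k x.1 < n - 1
      omega
  obtain ⟨e, he1, he2⟩ := mat (A := {w : Fin n // w ≠ t})
    (B := RR (Sum.inl a : Fin n ⊕ Fin 3) E) (fun w => lev w.1) (fun w => pos w.1)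
    (fun x => σ (k x.1)) (fun x => ρ x.1)
    (fun x y h1 h2 => Subtype.ext (hLvl.inj x.1 y.1 x.2 y.2 h1 h2))
    (fun x y _ h2 => Subtype.ext (hL.ri x.1 y.1 x.2.1 y.2.1 x.2.2 y.2.2 h2)) hcards
  obtain ⟨ψ, hψt, hψe⟩ : ∃ ψ : Fin n → Fin n ⊕ Fin 3, ψ t = Sum.inl a ∧
      ∀ w (h : w ≠ t), ψ w = (e ⟨w, h⟩ : RR (Sum.inl a : Fin n ⊕ Fin 3) E).1 :=
    ⟨fun w => if h : w = t then Sum.inl a else (e ⟨w, h⟩).1, dif_pos rfl,
      fun w h => dif_neg h⟩
  have hψR : ∀ w, w ≠ t → ψ w ∈ RR (Sum.inl a) E ∧ σ (k (ψ w)) = lev w := by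
    intro w hw
    rw [hψe w hw]
    exact ⟨(e ⟨w, hw⟩).2, he1 ⟨w, hw⟩⟩
  have hψsurj : ∀ r ∈ RR (Sum.inl a : Fin n ⊕ Fin 3) E, ∃ w, w ≠ t ∧ ψ w = r := by
    intro r hr
    refine ⟨(e.symm ⟨r, hr⟩).1, (e.symm ⟨r, hr⟩).2, ?_⟩
    rw [hψe _ (e.symm ⟨r, hr⟩).2]
    have h1 : (⟨(e.symm ⟨r, hr⟩).1, (e.symm ⟨r, hr⟩).2⟩ : {w : Fin n // w ≠ t}) =
        e.symm ⟨r, hr⟩ := rfl
    rw [h1, Equiv.apply_symm_apply]
  have hψmono : ∀ w w', w ≠ t → w' ≠ t → lev w = lev w' → pos w < pos w' →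
      ρ (ψ w) < ρ (ψ w') := by
    intro w w' hw hw' h1 h2
    rw [hψe w hw, hψe w' hw']
    exact he2 ⟨w, hw⟩ ⟨w', hw'⟩ h1 h2
  have hψinj : Function.Injective ψ := by
    intro u v huv
    by_cases hu : u = t
    · by_cases hv : v = t
      · rw [hu, hv]
      · exfalso
        rw [hu, hψt] at huv
        exact (hψR v hv).1.2 huv.symm
    · by_cases hv : v = t
      · exfalso
        rw [hv, hψt] at huv
        exact (hψR u hu).1.2 huv
      · rw [hψe u hu, hψe v hv] at huv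
        have h1 := e.injective (Subtype.ext huv)
        exact congrArg Subtype.val h1
  have hψRel : ∀ w, Rel E (ψ w) := by
    intro w
    by_cases hw : w = t
    · rw [hw, hψt]
      exact hRel a
    · exact (hψR w hw).1.1
  have hψc : ∀ w, w ≠ t → (∀ w', w' ≠ t → lev w ≤ lev w' ∧ (lev w' = lev w → pos w ≤ pos w')) →
      ψ w = Sum.inl c := by
    intro w hw hmin
    obtain ⟨w₀, hw₀, hc₀⟩ := hψsurj (Sum.inl c) hcR
    have h1 := hmin w₀ hw₀
    have h2 : lev w₀ = σ 0 := by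
      rw [← (hψR w₀ hw₀).2, hc₀, hL.kc]
    have h3 : σ 0 ≤ lev w := by
      rw [← (hψR w hw).2]
      exact hσ (Nat.zero_le _)
    have h4 : lev w₀ = lev w := by omega
    have h5 := h1.2 h4
    have h6 : ρ (Sum.inl c) ≤ ρ (ψ w) := by
      by_cases hwc : ψ w = Sum.inl c
      · rw [hwc]
      · exact le_of_lt (hL.rc (ψ w) (hψR w hw).1.1 (hψR w hw).1.2 hwc)
    have h7 : ¬ pos w < pos w₀ := by
      intro h
      have h8 := hψmono w w₀ hw hw₀ h4.symm h
      rw [hc₀] at h8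
      omega
    have h9 : pos w = pos w₀ := by omega
    rw [hLvl.inj w w₀ hw hw₀ h4.symm h9, hc₀]
  -- injectivity of placements
  have hinj : ∀ φ : Fin n → Fin n ⊕ Fin 3, Function.Injective φ → (∀ u, Rel E (φ u)) →
      (∀ x y w, x ≠ y → x ≠ w → y ≠ w → o (f (φ x)) (f (φ y)) (f (φ w)) ≠ 0) ∧
      Function.Injective (fun u => f (φ u)) := by
    intro φ hφ hφR
    have h1 : ∀ x y w, x ≠ y → x ≠ w → y ≠ w → o (f (φ x)) (f (φ y)) (f (φ w)) ≠ 0 := by
      intro x y w hxy hxw hyw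
      exact hGT.gp _ _ _ (hφR x) (hφR y) (hφR w) (fun h => hxy (hφ h)) (fun h => hxw (hφ h))
        (fun h => hyw (hφ h))
    refine ⟨h1, ?_⟩
    intro u v huv
    by_contra hne
    obtain ⟨w, hwu, hwv⟩ := third h3n u v
    refine h1 u v w hne (Ne.symm hwu) (Ne.symm hwv) ?_
    have huv' : f (φ u) = f (φ v) := huv
    rw [huv', o_pp]
  obtain ⟨hgp1, hinj1⟩ := hinj (fun u => Sum.inl u) Sum.inl_injective hRel
  refine ⟨Finset.univ.image (fun u : Fin n => f (Sum.inl u)), ?_, ?_, ?_⟩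
  · rw [Finset.card_image_of_injective _ hinj1, Finset.card_univ, Fintype.card_fin]
  · refine ⟨fun u => f (Sum.inl u), ?_, fun u => Finset.mem_image_of_mem _ (Finset.mem_univ u)⟩
    obtain ⟨z, hz⟩ := gnz (fun u : Fin n => f (Sum.inl u)) hinj1
    refine drw z hgp1 hz ?_
    intro x y w u hxy hwu
    exact fpl hNT hGT _ _ _ _ ((hE x y).mpr (hle hxy)) ((hE w u).mpr (hle hwu))
  · obtain ⟨hgp2, hinj2⟩ := hinj ψ hψinj hψRel
    refine ⟨fun u => f (ψ u), ?_, ?_⟩
    · obtain ⟨z, hz⟩ := gnz (fun u : Fin n => f (ψ u)) hinj2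
      refine drw z hgp2 hz ?_
      exact nxl G₂ t lev pos (Sum.inl a) (Sum.inl c) (RR (Sum.inl a) E) (fun x => σ (k x)) ρ f ψ
        hLvl hGL (fun p hp q hq h => hL.ri p q hp.1 hq.1 hp.2 hq.2 h) hcR hψt hψR hψsurj hψmono hψc
    · intro u
      obtain ⟨w, hw⟩ := hrel_inl (ψ u) (hψRel u)
      rw [Finset.mem_image]
      refine ⟨w, Finset.mem_univ w, ?_⟩
      show f (Sum.inl w) = f (ψ u)
      rw [hw]

end Pool.Agent.SGL.H11
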